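import Pool.Agent.Helper39.CR.CarDefs

/-!
# Upper semicontinuous fields of C*-algebras and their section algebras
-/

set_option autoImplicit false

open TopologicalSpace Set Filter Topology
open scoped ENNReal

namespace Pool.Agent.Helper51.FU

noncomputable section

/-- `A` is the algebra of continuous sections of an upper semicontinuous field over the compact
space `X` with the fibres `F x` (for compact Hausdorff `X` this is the same as a `C(X)`-algebra `A`,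
i.e. a nondegenerate *-homomorphism from `C(X)` to the centre of the multiplier algebra, and
`F x = A / C₀(X ∖ {x}) A`). -/
structure UField (X : Type) [TopologicalSpace X] (F : X → Type)
    [∀ x, NonUnitalCStarAlgebra (F x)] (A : Type) [NonUnitalCStarAlgebra A] where
  /-- the evaluation at `x` -/
  π : ∀ x, A →⋆ₙₐ[ℂ] F x
  surj : ∀ x, Function.Surjective (π x)
  inj : ∀ a, (∀ x, π x a = 0) → a = 0
  usc : ∀ a, UpperSemicontinuous fun x => ‖π x a‖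
  mod : ∀ (f : C(X, ℂ)) (a : A), ∃ b, ∀ x, π x b = f x • π x a

variable {X : Type} [TopologicalSpace X] {F : X → Type} [∀ x, NonUnitalCStarAlgebra (F x)]
  {A : Type} [NonUnitalCStarAlgebra A] (Φ : UField X F A)

/-- the sections over `S ⊆ Cantor space × X` of the pull back of the field -/
def sec (S : Set ((ℕ → Bool) × X)) :
    NonUnitalStarSubalgebra ℂ (lp (fun z : S => F z.1.2) ∞) where
  carrier := {g | ∀ (z₀ : S) (ε : ℝ), 0 < ε → ∃ a : A, ∀ᶠ z in 𝓝 z₀, ‖g z - Φ.π z.1.2 a‖ < ε}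
  add_mem' {g h} hg hh z₀ ε hε := by
    obtain ⟨a, ha⟩ := hg z₀ (ε / 2) (by positivity)
    obtain ⟨b, hb⟩ := hh z₀ (ε / 2) (by positivity)
    refine ⟨a + b, ?_⟩
    filter_upwards [ha, hb] with z h1 h2
    have e : (g + h) z - Φ.π z.1.2 (a + b) = (g z - Φ.π z.1.2 a) + (h z - Φ.π z.1.2 b) := by
      rw [map_add, lp.coeFn_add, Pi.add_apply]
      abel
    rw [e]
    exact (norm_add_le _ _).trans_lt (by linarith)
  zero_mem' z₀ ε hε := ⟨0, by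
    filter_upwards with z
    simp [hε]⟩
  mul_mem' {g h} hg hh z₀ ε hε := by
    obtain ⟨a, ha⟩ := hg z₀ (ε / (2 * (‖h‖ + 1))) (by positivity)
    obtain ⟨b, hb⟩ := hh z₀ (ε / (2 * (‖a‖ + 1))) (by positivity)
    refine ⟨a * b, ?_⟩
    filter_upwards [ha, hb] with z h1 h2
    have e : (g * h) z - Φ.π z.1.2 (a * b) =
        (g z - Φ.π z.1.2 a) * h z + Φ.π z.1.2 a * (h z - Φ.π z.1.2 b) := by
      rw [map_mul, lp.infty_coeFn_mul, Pi.mul_apply]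
      noncomm_ring
    rw [e]
    have h3 : ‖(g z - Φ.π z.1.2 a) * h z‖ < ε / 2 := by
      refine (norm_mul_le _ _).trans_lt ?_
      have h4 : ‖h z‖ ≤ ‖h‖ := lp.norm_apply_le_norm (by simp) h z
      calc ‖g z - Φ.π z.1.2 a‖ * ‖h z‖ ≤ ‖g z - Φ.π z.1.2 a‖ * (‖h‖ + 1) :=
            mul_le_mul_of_nonneg_left (by linarith) (norm_nonneg _)
        _ < ε / (2 * (‖h‖ + 1)) * (‖h‖ + 1) := mul_lt_mul_of_pos_right h1 (by positivity)
        _ = ε / 2 := by field_simp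
    have h5 : ‖Φ.π z.1.2 a * (h z - Φ.π z.1.2 b)‖ < ε / 2 := by
      refine (norm_mul_le _ _).trans_lt ?_
      have h4 : ‖Φ.π z.1.2 a‖ ≤ ‖a‖ := NonUnitalStarAlgHom.norm_apply_le (Φ.π z.1.2) a
      calc ‖Φ.π z.1.2 a‖ * ‖h z - Φ.π z.1.2 b‖ ≤ (‖a‖ + 1) * ‖h z - Φ.π z.1.2 b‖ :=
            mul_le_mul_of_nonneg_right (by linarith) (norm_nonneg _)
        _ < (‖a‖ + 1) * (ε / (2 * (‖a‖ + 1))) := mul_lt_mul_of_pos_left h2 (by positivity)
        _ = ε / 2 := by field_simp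
    exact (norm_add_le _ _).trans_lt (by linarith)
  smul_mem' c g hg z₀ ε hε := by
    obtain ⟨a, ha⟩ := hg z₀ (ε / (‖c‖ + 1)) (by positivity)
    refine ⟨c • a, ?_⟩
    filter_upwards [ha] with z h1
    have e : (c • g) z - Φ.π z.1.2 (c • a) = c • (g z - Φ.π z.1.2 a) := by
      rw [map_smul, lp.coeFn_smul, Pi.smul_apply, smul_sub]
    rw [e, norm_smul]
    calc ‖c‖ * ‖g z - Φ.π z.1.2 a‖ ≤ (‖c‖ + 1) * ‖g z - Φ.π z.1.2 a‖ :=
          mul_le_mul_of_nonneg_right (by linarith) (norm_nonneg _)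
      _ < (‖c‖ + 1) * (ε / (‖c‖ + 1)) := mul_lt_mul_of_pos_left h1 (by positivity)
      _ = ε := by field_simp
  star_mem' {g} hg z₀ ε hε := by
    obtain ⟨a, ha⟩ := hg z₀ ε hε
    refine ⟨star a, ?_⟩
    filter_upwards [ha] with z h1
    have e : (star g) z - Φ.π z.1.2 (star a) = star (g z - Φ.π z.1.2 a) := by
      rw [map_star, star_sub]
      rfl
    rw [e, norm_star]
    exact h1

theorem sec_closed (S : Set ((ℕ → Bool) × X)) :
    IsClosed ((sec Φ S : NonUnitalStarSubalgebra ℂ (lp (fun z : S => F z.1.2) ∞)) :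
      Set (lp (fun z : S => F z.1.2) ∞)) := by
  rw [← isSeqClosed_iff_isClosed]
  intro u g hu hg z₀ ε hε
  rw [Metric.tendsto_atTop] at hg
  obtain ⟨n, hn⟩ := hg (ε / 2) (by positivity)
  have h1 := hn n le_rfl
  obtain ⟨a, ha⟩ := hu n z₀ (ε / 2) (by positivity)
  refine ⟨a, ?_⟩
  filter_upwards [ha] with z h2
  have h3 : ‖g z - u n z‖ ≤ ‖g - u n‖ := by
    have := lp.norm_apply_le_norm (by simp) (g - u n) z
    simpa using this
  rw [dist_comm, dist_eq_norm] at h1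
  have e : g z - Φ.π z.1.2 a = (g z - u n z) + (u n z - Φ.π z.1.2 a) := by abel
  rw [e]
  exact (norm_add_le _ _).trans_lt (by linarith)

instance (S : Set ((ℕ → Bool) × X)) :
    IsClosed ((sec Φ S : NonUnitalStarSubalgebra ℂ (lp (fun z : S => F z.1.2) ∞)) :
      Set (lp (fun z : S => F z.1.2) ∞)) := sec_closed Φ S

/-- the algebra of the sections over `S` -/
abbrev G (S : Set ((ℕ → Bool) × X)) : Type := sec Φ S

variable {Φ} {S : Set ((ℕ → Bool) × X)}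

theorem G_ext {g h : G Φ S} (e : ∀ z, g.1 z = h.1 z) : g = h :=
  Subtype.ext (lp.ext (funext e))

theorem G_norm_apply (g : G Φ S) (z : S) : ‖g.1 z‖ ≤ ‖g‖ :=
  lp.norm_apply_le_norm (by simp) g.1 z

theorem G_norm_le {g : G Φ S} {C : ℝ} (hC : 0 ≤ C) (h : ∀ z, ‖g.1 z‖ ≤ C) : ‖g‖ ≤ C :=
  lp.norm_le_of_forall_le hC h

/-- local approximation -/
theorem G_loc (g : G Φ S) (z₀ : S) {ε : ℝ} (hε : 0 < ε) :
    ∃ a : A, ∀ᶠ z in 𝓝 z₀, ‖g.1 z - Φ.π z.1.2 a‖ < ε := g.2 z₀ ε hε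

/-- sections from functions -/
def mk (f : ∀ z : S, F z.1.2) (hb : ∃ C : ℝ, ∀ z, ‖f z‖ ≤ C)
    (hs : ∀ (z₀ : S) (ε : ℝ), 0 < ε → ∃ a : A, ∀ᶠ z in 𝓝 z₀, ‖f z - Φ.π z.1.2 a‖ < ε) : G Φ S :=
  ⟨⟨f, memℓp_infty_iff.2 (by
    obtain ⟨C, hC⟩ := hb
    exact ⟨C, by rintro _ ⟨z, rfl⟩; exact hC z⟩)⟩, hs⟩

@[simp] theorem mk_apply (f : ∀ z : S, F z.1.2) (hb : ∃ C : ℝ, ∀ z, ‖f z‖ ≤ C)
    (hs : ∀ (z₀ : S) (ε : ℝ), 0 < ε → ∃ a : A, ∀ᶠ z in 𝓝 z₀, ‖f z - Φ.π z.1.2 a‖ < ε) (z : S) :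
    (mk f hb hs).1 z = f z := rfl

@[simp] theorem G_add (g h : G Φ S) (z : S) : (g + h).1 z = g.1 z + h.1 z := rfl

@[simp] theorem G_zero (z : S) : (0 : G Φ S).1 z = 0 := rfl

@[simp] theorem G_neg (g : G Φ S) (z : S) : (-g).1 z = -g.1 z := rfl

@[simp] theorem G_sub (g h : G Φ S) (z : S) : (g - h).1 z = g.1 z - h.1 z := rfl

@[simp] theorem G_mul (g h : G Φ S) (z : S) : (g * h).1 z = g.1 z * h.1 z := rfl

@[simp] theorem G_smul (c : ℂ) (g : G Φ S) (z : S) : (c • g).1 z = c • g.1 z := rfl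

@[simp] theorem G_star (g : G Φ S) (z : S) : (star g).1 z = star (g.1 z) := rfl

/-- evaluation -/
def ev (z : S) : G Φ S →⋆ₙₐ[ℂ] F z.1.2 where
  toFun g := g.1 z
  map_add' _ _ := rfl
  map_zero' := rfl
  map_mul' _ _ := rfl
  map_smul' _ _ := rfl
  map_star' _ := rfl

@[simp] theorem ev_apply (z : S) (g : G Φ S) : ev z g = g.1 z := rfl

theorem G_sum {ι : Type} (s : Finset ι) (g : ι → G Φ S) (z : S) :
    (∑ i ∈ s, g i).1 z = ∑ i ∈ s, (g i).1 z := map_sum (ev z) g s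

/-- the section of an element of `A` -/
def inc (S : Set ((ℕ → Bool) × X)) (Φ : UField X F A) : A →⋆ₙₐ[ℂ] G Φ S where
  toFun a := mk (fun z => Φ.π z.1.2 a) ⟨‖a‖, fun z => NonUnitalStarAlgHom.norm_apply_le _ a⟩
    fun z₀ ε hε => ⟨a, by simp [hε]⟩
  map_add' a b := G_ext fun z => map_add _ a b
  map_zero' := G_ext fun z => map_zero _
  map_mul' a b := G_ext fun z => map_mul _ a b
  map_smul' c a := G_ext fun z => map_smul _ c a
  map_star' a := G_ext fun z => map_star _ a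

@[simp] theorem inc_apply (a : A) (z : S) : (inc S Φ a).1 z = Φ.π z.1.2 a := rfl

/-- upper semicontinuity of the norm of a section -/
theorem G_usc (g : G Φ S) {z₀ : S} {c : ℝ} (h : ‖g.1 z₀‖ < c) : ∀ᶠ z in 𝓝 z₀, ‖g.1 z‖ < c := by
  set ε : ℝ := (c - ‖g.1 z₀‖) / 3 with hε
  have hε0 : 0 < ε := by rw [hε]; linarith
  obtain ⟨a, ha⟩ := G_loc g z₀ hε0
  have h1 : ‖Φ.π z₀.1.2 a‖ < c - ε := by
    have h2 := ha.self_of_nhds
    have h3 : ‖Φ.π z₀.1.2 a‖ ≤ ‖g.1 z₀‖ + ‖g.1 z₀ - Φ.π z₀.1.2 a‖ := by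
      have e : Φ.π z₀.1.2 a = g.1 z₀ - (g.1 z₀ - Φ.π z₀.1.2 a) := by abel
      calc ‖Φ.π z₀.1.2 a‖ = ‖g.1 z₀ - (g.1 z₀ - Φ.π z₀.1.2 a)‖ := by rw [← e]
        _ ≤ _ := norm_sub_le _ _
    linarith
  have h4 : ∀ᶠ z : S in 𝓝 z₀, ‖Φ.π z.1.2 a‖ < c - ε := by
    have h5 : ∀ᶠ x in 𝓝 z₀.1.2, ‖Φ.π x a‖ < c - ε := Φ.usc a z₀.1.2 (c - ε) h1
    have h6 : Tendsto (fun z : S => z.1.2) (𝓝 z₀) (𝓝 z₀.1.2) :=
      (continuous_snd.comp continuous_subtype_val).tendsto z₀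
    exact h6.eventually h5
  filter_upwards [ha, h4] with z h5 h6
  have e : g.1 z = (g.1 z - Φ.π z.1.2 a) + Φ.π z.1.2 a := by abel
  rw [e]
  exact (norm_add_le _ _).trans_lt (by linarith)

/-- multiplication by continuous functions -/
def fm [CompactSpace S] (f : C(S, ℂ)) (g : G Φ S) : G Φ S :=
  mk (fun z => f z • g.1 z) ⟨‖f‖ * ‖g‖, fun z => by
    rw [norm_smul]
    exact mul_le_mul (f.norm_coe_le_norm z) (G_norm_apply g z) (norm_nonneg _) (norm_nonneg _)⟩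
    fun z₀ ε hε => by
      obtain ⟨a, ha⟩ := G_loc g z₀ (show 0 < ε / (2 * (‖f‖ + 1)) by positivity)
      refine ⟨f z₀ • a, ?_⟩
      have hf : ∀ᶠ z in 𝓝 z₀, ‖f z - f z₀‖ < ε / (2 * (‖a‖ + 1)) := by
        have := f.continuous.tendsto z₀
        rw [Metric.tendsto_nhds] at this
        have h2 := this (ε / (2 * (‖a‖ + 1))) (by positivity)
        simpa [dist_eq_norm] using h2
      filter_upwards [ha, hf] with z h1 h2
      have e : f z • g.1 z - Φ.π z.1.2 (f z₀ • a) =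
          f z • (g.1 z - Φ.π z.1.2 a) + (f z - f z₀) • Φ.π z.1.2 a := by
        rw [map_smul, smul_sub, sub_smul]
        abel
      rw [e]
      have h3 : ‖f z • (g.1 z - Φ.π z.1.2 a)‖ < ε / 2 := by
        rw [norm_smul]
        have h4 : ‖f z‖ ≤ ‖f‖ := f.norm_coe_le_norm z
        calc ‖f z‖ * ‖g.1 z - Φ.π z.1.2 a‖ ≤ (‖f‖ + 1) * ‖g.1 z - Φ.π z.1.2 a‖ :=
              mul_le_mul_of_nonneg_right (by linarith) (norm_nonneg _)
          _ < (‖f‖ + 1) * (ε / (2 * (‖f‖ + 1))) := mul_lt_mul_of_pos_left h1 (by positivity)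
          _ = ε / 2 := by field_simp
      have h5 : ‖(f z - f z₀) • Φ.π z.1.2 a‖ < ε / 2 := by
        rw [norm_smul]
        have h4 : ‖Φ.π z.1.2 a‖ ≤ ‖a‖ := NonUnitalStarAlgHom.norm_apply_le (Φ.π z.1.2) a
        calc ‖f z - f z₀‖ * ‖Φ.π z.1.2 a‖ ≤ ‖f z - f z₀‖ * (‖a‖ + 1) :=
              mul_le_mul_of_nonneg_left (by linarith) (norm_nonneg _)
          _ < ε / (2 * (‖a‖ + 1)) * (‖a‖ + 1) := mul_lt_mul_of_pos_right h2 (by positivity)
          _ = ε / 2 := by field_simp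
      exact (norm_add_le _ _).trans_lt (by linarith)

@[simp] theorem fm_apply [CompactSpace S] (f : C(S, ℂ)) (g : G Φ S) (z : S) :
    (fm f g).1 z = f z • g.1 z := rfl

/-- the pull back along a map of the Cantor coordinate -/
def pull {S S' : Set ((ℕ → Bool) × X)} (τ : (ℕ → Bool) → (ℕ → Bool)) (hτ : Continuous τ)
    (h : ∀ z ∈ S', (τ z.1, z.2) ∈ S) : G Φ S →⋆ₙₐ[ℂ] G Φ S' where
  toFun g := mk (fun z => g.1 ⟨(τ z.1.1, z.1.2), h z.1 z.2⟩)
    ⟨‖g‖, fun z => G_norm_apply g ⟨(τ z.1.1, z.1.2), h z.1 z.2⟩⟩ fun z₀ ε hε => by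
      obtain ⟨a, ha⟩ := G_loc g ⟨(τ z₀.1.1, z₀.1.2), h z₀.1 z₀.2⟩ hε
      refine ⟨a, ?_⟩
      have hc : Continuous fun z : S' => (⟨(τ z.1.1, z.1.2), h z.1 z.2⟩ : S) :=
        Continuous.subtype_mk (((hτ.comp continuous_fst).prodMk continuous_snd).comp
          continuous_subtype_val) _
      exact (hc.tendsto z₀).eventually ha
  map_add' _ _ := rfl
  map_zero' := rfl
  map_mul' _ _ := rfl
  map_smul' _ _ := rfl
  map_star' _ := rfl

@[simp] theorem pull_apply {S S' : Set ((ℕ → Bool) × X)} (τ : (ℕ → Bool) → (ℕ → Bool))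
    (hτ : Continuous τ) (h : ∀ z ∈ S', (τ z.1, z.2) ∈ S) (g : G Φ S) (z : S') :
    (pull τ hτ h g).1 z = g.1 ⟨(τ z.1.1, z.1.2), h z.1 z.2⟩ := rfl

/-- restriction -/
def res {S S' : Set ((ℕ → Bool) × X)} (h : S' ⊆ S) : G Φ S →⋆ₙₐ[ℂ] G Φ S' :=
  pull id continuous_id fun z hz => h hz

@[simp] theorem res_apply {S S' : Set ((ℕ → Bool) × X)} (h : S' ⊆ S) (g : G Φ S) (z : S') :
    (res h g).1 z = g.1 ⟨z.1, h z.2⟩ := rfl

end

end Pool.Agent.Helper51.FU
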