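import Pool.Agent.Helper51.FU.Cls

/-!
# Section algebras as algebras over the Cantor space
-/

set_option autoImplicit false

open TopologicalSpace Set Filter Topology
open scoped ENNReal

namespace Pool.Agent.Helper51.FU

open Pool.Agent.Helper39.CarDefs Pool.Agent.Helper93.FU

noncomputable section

variable {X : Type} [TopologicalSpace X] {F : X → Type} [∀ x, NonUnitalCStarAlgebra (F x)]
  {A : Type} [NonUnitalCStarAlgebra A] {Φ : UField X F A} {S : Set ((ℕ → Bool) × X)}

/-- functions of the Cantor coordinate -/
def fc (S : Set ((ℕ → Bool) × X)) (f : C(ℕ → Bool, ℂ)) : C(S, ℂ) :=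
  f.comp ⟨fun z => z.1.1, continuous_fst.comp continuous_subtype_val⟩

/-- the action of the functions on the Cantor space -/
def cxG [CompactSpace S] (Φ : UField X F A) : CXAlg (ℕ → Bool) (G Φ S) where
  act :=
    { toFun := fun f =>
        { toFun := fun g => fm (fc S f) g
          map_add' := fun g h => G_ext fun z => smul_add _ _ _
          map_smul' := fun c g => G_ext fun z => smul_comm _ _ _ }
      map_one' := LinearMap.ext fun g => G_ext fun z => one_smul _ _
      map_mul' := fun f f' => LinearMap.ext fun g => G_ext fun z => mul_smul _ _ _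
      map_zero' := LinearMap.ext fun g => G_ext fun z => zero_smul _ _
      map_add' := fun f f' => LinearMap.ext fun g => G_ext fun z => add_smul _ _ _
      commutes' := fun c => LinearMap.ext fun g => G_ext fun z => by
        change (algebraMap ℂ C(ℕ → Bool, ℂ) c) z.1.1 • g.1 z = _
        have e : (algebraMap ℂ C(ℕ → Bool, ℂ) c) z.1.1 = c := by simp
        rw [e]
        rfl }
  mul_left f a b := G_ext fun z => (smul_mul_assoc _ _ _).symm
  mul_right f a b := G_ext fun z => (mul_smul_comm _ _ _).symm
  star_act f a := G_ext fun z => star_smul _ _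

theorem cxG_act [CompactSpace S] (f : C(ℕ → Bool, ℂ)) (g : G Φ S) (z : S) :
    ((cxG (S := S) Φ).act f g).1 z = f z.1.1 • g.1 z := rfl

/-- the fibres -/
theorem cxG_fib [T2Space X] [CompactSpace X] [CompactSpace S] (hS : IsClosed S) (ξ : ℕ → Bool) :
    (cxG (S := S) Φ).IsFibre ξ
      (res inter_subset_left : Hom (G Φ S) (G Φ (S ∩ {z | z.1 = ξ}))) := by
  have hE : IsClosed {z : (ℕ → Bool) × X | z.1 = ξ} := isClosed_eq continuous_fst continuous_const
  refine ⟨res_surj (hS.inter hE) inter_subset_left, fun g => ⟨fun hg => ?_, fun hg => ?_⟩⟩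
  · have h0 : ∀ z : S, z.1.1 = ξ → g.1 z = 0 := by
      intro z hz
      have h1 : (res (inter_subset_left (t := {z : (ℕ → Bool) × X | z.1 = ξ})) g).1
          ⟨z.1, z.2, hz⟩ = 0 := by rw [hg]; rfl
      exact h1
    change g ∈ closure (_ : Set (G Φ S))
    rw [Metric.mem_closure_iff]
    intro ε hε
    have h2 := (fst_closed (S := S)).eventually_nhds_fiber
      (p := fun z => ‖g.1 z‖ < ε / 2) ξ (by
        intro z hz
        refine G_usc _ ?_
        rw [h0 z hz, norm_zero]
        positivity)
    obtain ⟨k, hk⟩ := cyl_nhds h2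
    let f : C(ℕ → Bool, ℂ) :=
      { toFun := fun η => if (∀ i < k, η i = ξ i) then 0 else 1
        continuous_toFun := by
          refine IsLocallyConstant.continuous ?_
          rw [IsLocallyConstant.iff_eventually_eq]
          intro η
          filter_upwards [(cyl_open k η).mem_nhds fun i _ => rfl] with η' hη'
          have : (∀ i < k, η' i = ξ i) ↔ ∀ i < k, η i = ξ i := by
            constructor
            · intro h i hi
              rw [← hη' i hi, h i hi]
            · intro h i hi
              rw [hη' i hi, h i hi]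
          simp only [this] }
    refine ⟨(cxG (S := S) Φ).act f g, Submodule.subset_span ⟨f, g, ?_, rfl⟩, ?_⟩
    · intro y hy
      rw [mem_singleton_iff] at hy
      subst hy
      change (if _ then (0 : ℂ) else 1) = 0
      rw [if_pos fun i _ => rfl]
    · rw [dist_eq_norm]
      refine lt_of_le_of_lt (G_norm_le (C := ε / 2) (by positivity) fun z => ?_) (half_lt_self hε)
      rw [G_sub, cxG_act]
      change ‖g.1 z - (if (∀ i < k, z.1.1 i = ξ i) then (0 : ℂ) else 1) • g.1 z‖ ≤ ε / 2
      split_ifs with h
      · rw [zero_smul, sub_zero]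
        exact (hk z.1.1 h z rfl).le
      · rw [one_smul, sub_self, norm_zero]
        positivity
  · have hc : IsClosed {g : G Φ S | (res (inter_subset_left (t := {z : (ℕ → Bool) × X | z.1 = ξ}))
        g : G Φ (S ∩ {z | z.1 = ξ})) = 0} := by
      have e : {g : G Φ S | (res (inter_subset_left (t := {z : (ℕ → Bool) × X | z.1 = ξ}))
          g : G Φ (S ∩ {z | z.1 = ξ})) = 0} = ⋂ z : S, ⋂ _ : z.1.1 = ξ, {g : G Φ S | g.1 z = 0} := by
        ext g
        simp only [mem_setOf_eq, mem_iInter]
        constructor
        · intro h z hz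
          have h1 : (res (inter_subset_left (t := {z : (ℕ → Bool) × X | z.1 = ξ})) g).1
              ⟨z.1, z.2, hz⟩ = 0 := by rw [h]; rfl
          exact h1
        · intro h
          exact G_ext fun z => h ⟨z.1, z.2.1⟩ z.2.2
      rw [e]
      exact isClosed_iInter fun z => isClosed_iInter fun _ =>
        isClosed_eq (ev_cont z) continuous_const
    have hsub : ((Submodule.span ℂ {z : G Φ S | ∃ (f : C(ℕ → Bool, ℂ)) (a : G Φ S),
        (∀ y ∈ ({ξ} : Set (ℕ → Bool)), f y = 0) ∧ z = (cxG (S := S) Φ).act f a} :
        Submodule ℂ (G Φ S)) : Set (G Φ S)) ⊆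
        {g : G Φ S | (res (inter_subset_left (t := {z : (ℕ → Bool) × X | z.1 = ξ}))
          g : G Φ (S ∩ {z | z.1 = ξ})) = 0} := by
      intro g hg
      refine Submodule.span_induction (p := fun g _ =>
        (res (inter_subset_left (t := {z : (ℕ → Bool) × X | z.1 = ξ}))
          g : G Φ (S ∩ {z | z.1 = ξ})) = 0) ?_ ?_ ?_ ?_ hg
      · rintro _ ⟨f, a, hf, rfl⟩
        refine G_ext fun z => ?_
        rw [res_apply, cxG_act]
        have h1 : f z.1.1 = 0 := hf _ z.2.2
        change f z.1.1 • _ = _
        rw [h1, zero_smul]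
        rfl
      · exact map_zero _
      · intro x y _ _ hx hy
        rw [map_add, hx, hy, add_zero]
      · intro c x _ hx
        rw [map_smul, hx, smul_zero]
    exact closure_minimal hsub hc hg

end

end Pool.Agent.Helper51.FU
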