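import Pool.Agent.Helper51.FU.Rel
import Pool.Agent.Helper93.FU.Defs

/-!
# Section algebras: locally constant sections, membership in the class
-/

set_option autoImplicit false

open TopologicalSpace Set Filter Topology
open scoped ENNReal

namespace Pool.Agent.Helper51.FU

open Pool.Agent.Helper39.CarDefs Pool.Agent.Helper93.FU

noncomputable section

/-! ## Isomorphisms -/

theorem inv_hom {A B : Type} [NonUnitalCStarAlgebra A] [NonUnitalCStarAlgebra B] (f : Hom A B)
    (hf : Function.Bijective f) : ∃ g : Hom B A, (∀ a, g (f a) = a) ∧ ∀ b, f (g b) = b := by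
  let e := Equiv.ofBijective f hf
  have h1 : ∀ b, f (e.symm b) = b := fun b => e.apply_symm_apply b
  refine ⟨{ toFun := e.symm
            map_smul' := fun c b => hf.1 (by rw [h1, MonoidHom.id_apply, map_smul, h1])
            map_zero' := hf.1 (by rw [h1, map_zero])
            map_add' := fun a b => hf.1 (by rw [h1, map_add, h1, h1])
            map_mul' := fun a b => hf.1 ?_
            map_star' := fun a => hf.1 ?_ }, fun a => e.symm_apply_apply a, h1⟩
  · change f (e.symm (a * b)) = f (e.symm a * e.symm b)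
    rw [h1, map_mul, h1, h1]
  · change f (e.symm (star a)) = f (star (e.symm a))
    rw [h1, map_star, h1]

theorem N_surj {𝒩 : Cls} (hN : IsClass 𝒩) {J A B : Type} [NonUnitalCStarAlgebra J]
    [NonUnitalCStarAlgebra A] [NonUnitalCStarAlgebra B] (u : Hom J A) (f : Hom A B)
    (h : IsExtension u f) (hA : 𝒩 A) : 𝒩 B := hN.quot J A B u f h hA

theorem N_bij {𝒩 : Cls} (hN : IsClass 𝒩) {A B : Type} [NonUnitalCStarAlgebra A]
    [NonUnitalCStarAlgebra B] (f : Hom A B) (hf : Function.Bijective f) (hA : 𝒩 A) : 𝒩 B := by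
  have h0 : ∀ z : Fin 0 → ℂ, z = 0 := fun z => Subsingleton.elim _ _
  let u : Hom (Fin 0 → ℂ) A := 0
  refine hN.quot (Fin 0 → ℂ) A B u f ⟨fun a b _ => Subsingleton.elim _ _, hf.2, fun a => ?_⟩ hA
  constructor
  · intro h
    exact ⟨0, (hf.1 (by rw [h, map_zero]) : (0 : A) = a)⟩
  · rintro ⟨k, rfl⟩
    change f 0 = 0
    exact map_zero f

theorem N_bij' {𝒩 : Cls} (hN : IsClass 𝒩) {A B : Type} [NonUnitalCStarAlgebra A]
    [NonUnitalCStarAlgebra B] (f : Hom A B) (hf : Function.Bijective f) (hB : 𝒩 B) : 𝒩 A := by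
  obtain ⟨g, h1, h2⟩ := inv_hom f hf
  exact N_bij hN g ⟨Function.LeftInverse.injective h2, Function.RightInverse.surjective h1⟩ hB

/-! ## Truncations -/

/-- truncation -/
def tr (k : ℕ) (ξ : ℕ → Bool) : ℕ → Bool := fun i => if i < k then ξ i else false

theorem tr_cont (k : ℕ) : Continuous (tr k) := by
  refine continuous_pi fun i => ?_
  unfold tr
  by_cases h : i < k
  · simp only [h, if_true]
    exact continuous_apply i
  · simp only [h, if_false]
    exact continuous_const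

theorem tr_lt {k i : ℕ} (h : i < k) (ξ : ℕ → Bool) : tr k ξ i = ξ i := if_pos h

theorem tr_ge {k i : ℕ} (h : k ≤ i) (ξ : ℕ → Bool) : tr k ξ i = false := if_neg (not_lt.2 h)

theorem tr_tr {k l : ℕ} (h : k ≤ l) (ξ : ℕ → Bool) : tr k (tr l ξ) = tr k ξ := by
  funext i
  by_cases hi : i < k
  · rw [tr_lt hi, tr_lt hi, tr_lt (hi.trans_le h)]
  · rw [tr_ge (not_lt.1 hi), tr_ge (not_lt.1 hi)]

theorem tr_self {k : ℕ} {ξ : ℕ → Bool} (h : ∀ i, k ≤ i → ξ i = false) : tr k ξ = ξ := by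
  funext i
  by_cases hi : i < k
  · rw [tr_lt hi]
  · rw [tr_ge (not_lt.1 hi), h i (not_lt.1 hi)]

theorem tr_fin (k : ℕ) : (range (tr k)).Finite := by
  have h : range (tr k) ⊆ range fun s : Fin k → Bool => fun i : ℕ =>
      if h : i < k then s ⟨i, h⟩ else false := by
    rintro _ ⟨ξ, rfl⟩
    refine ⟨fun i => ξ i, ?_⟩
    funext i
    by_cases hi : i < k
    · simp [tr, hi]
    · simp [tr, hi]
  exact (Set.finite_range _).subset h

theorem cyl_nhds {p : (ℕ → Bool) → Prop} {ξ₀ : ℕ → Bool} (h : ∀ᶠ ξ in 𝓝 ξ₀, p ξ) :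
    ∃ k : ℕ, ∀ ξ, (∀ i < k, ξ i = ξ₀ i) → p ξ := by
  have h1 := (PiNat.isTopologicalBasis_cylinders (fun _ : ℕ => Bool)).mem_nhds_iff.1 h
  obtain ⟨_, ⟨y, n, rfl⟩, hx, hs⟩ := h1
  refine ⟨n, fun ξ hξ => hs ?_⟩
  rw [PiNat.mem_cylinder_iff] at hx ⊢
  intro i hi
  rw [hξ i hi, hx i hi]

theorem cyl_open (k : ℕ) (ξ₀ : ℕ → Bool) : IsOpen {ξ : ℕ → Bool | ∀ i < k, ξ i = ξ₀ i} := by
  have := PiNat.isOpen_cylinder (fun _ : ℕ => Bool) ξ₀ k
  have e : {ξ : ℕ → Bool | ∀ i < k, ξ i = ξ₀ i} = PiNat.cylinder ξ₀ k := by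
    ext ξ
    rw [PiNat.mem_cylinder_iff]
    rfl
  rw [e]
  exact this

variable {X : Type} [TopologicalSpace X] {F : X → Type} [∀ x, NonUnitalCStarAlgebra (F x)]
  {A : Type} [NonUnitalCStarAlgebra A] {Φ : UField X F A} {S : Set ((ℕ → Bool) × X)}

/-- the projection of a compact set to the Cantor space is a closed map -/
theorem fst_closed [CompactSpace S] : IsClosedMap fun z : S => z.1.1 :=
  (continuous_fst.comp continuous_subtype_val).isClosedMap

/-- on one fibre of the projection to the Cantor space a section is an element of `A` -/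
theorem on_fib [T2Space X] [CompactSpace X] (hS : IsClosed S) (g : G Φ S) (ξ : ℕ → Bool) :
    ∃ a : A, ∀ z : S, z.1.1 = ξ → g.1 z = Φ.π z.1.2 a := by
  let E : Set ((ℕ → Bool) × X) := {z | z.1 = ξ}
  have hE : IsClosed E := isClosed_eq continuous_fst continuous_const
  haveI := compS hE
  obtain ⟨h, hh⟩ := res_surj (Φ := Φ) (S := E) (hS.inter hE) (inter_subset_right (s := S)) (res inter_subset_left g)
  obtain ⟨a, rfl⟩ := (inc_bij (Φ := Φ) (S := E) ξ rfl).2 h
  refine ⟨a, fun z hz => ?_⟩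
  have h1 : (res (inter_subset_right (s := S)) (inc E Φ a)).1 ⟨z.1, z.2, hz⟩ =
      (res (inter_subset_left (t := E)) g).1 ⟨z.1, z.2, hz⟩ := by rw [hh]
  exact h1.symm

/-- approximation by locally constant families of elements of `A` -/
theorem lcd [T2Space X] [CompactSpace X] (hS : IsClosed S) (g : G Φ S) {ε : ℝ} (hε : 0 < ε) :
    ∃ (k : ℕ) (a : (ℕ → Bool) → A), (∀ ξ, a (tr k ξ) = a ξ) ∧
      ∀ z : S, ‖g.1 z - Φ.π z.1.2 (a z.1.1)‖ ≤ ε := by
  haveI := compS hS
  have h1 : ∀ ξ₀ : ℕ → Bool, ∃ (k : ℕ) (a : A), ∀ z : S, (∀ i < k, z.1.1 i = ξ₀ i) →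
      ‖g.1 z - Φ.π z.1.2 a‖ ≤ ε := by
    intro ξ₀
    obtain ⟨a, ha⟩ := on_fib hS g ξ₀
    have h2 := (fst_closed (S := S)).eventually_nhds_fiber
      (p := fun z => ‖(g - inc S Φ a).1 z‖ < ε) ξ₀ (by
        intro z hz
        refine G_usc _ ?_
        have : (g - inc S Φ a).1 z = 0 := by
          rw [G_sub, inc_apply, ha z hz, sub_self]
        rw [this, norm_zero]
        exact hε)
    obtain ⟨k, hk⟩ := cyl_nhds h2
    exact ⟨k, a, fun z hz => (hk z.1.1 hz z rfl).le⟩
  choose k a ha using h1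
  obtain ⟨t, ht⟩ := isCompact_univ.elim_finite_subcover
    (fun ξ₀ : ℕ → Bool => {ξ : ℕ → Bool | ∀ i < k ξ₀, ξ i = ξ₀ i}) (fun ξ₀ => cyl_open _ _)
    (fun ξ _ => mem_iUnion.2 ⟨ξ, fun i _ => rfl⟩)
  let K : ℕ := t.sup k
  have h2 : ∀ ξ : ℕ → Bool, ∃ b : A, ∀ z : S, (∀ i < K, z.1.1 i = ξ i) →
      ‖g.1 z - Φ.π z.1.2 b‖ ≤ ε := by
    intro ξ
    obtain ⟨ξ₀, hξ₀⟩ := mem_iUnion.1 (ht (mem_univ ξ))
    obtain ⟨h3, h4⟩ := mem_iUnion.1 hξ₀
    refine ⟨a ξ₀, fun z hz => ha ξ₀ z fun i hi => ?_⟩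
    rw [hz i (hi.trans_le (Finset.le_sup h3)), h4 i hi]
  choose b hb using h2
  refine ⟨K, fun ξ => b (tr K ξ), fun ξ => ?_, fun z => hb _ z fun i hi => (tr_lt hi _).symm⟩
  change b (tr K (tr K ξ)) = b (tr K ξ)
  rw [tr_tr le_rfl]

/-- sections from locally constant families -/
def lc (S : Set ((ℕ → Bool) × X)) (Φ : UField X F A) (k : ℕ) (a : (ℕ → Bool) → A)
    (ha : ∀ ξ, a (tr k ξ) = a ξ) : G Φ S :=
  mk (fun z => Φ.π z.1.2 (a z.1.1)) (by
    obtain ⟨C, hC⟩ := ((tr_fin k).image fun ξ => ‖a ξ‖).bddAbove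
    refine ⟨C, fun z => (NonUnitalStarAlgHom.norm_apply_le _ _).trans ?_⟩
    rw [← ha]
    exact hC ⟨tr k z.1.1, ⟨_, rfl⟩, rfl⟩) fun z₀ ε hε => ⟨a z₀.1.1, by
      have h1 : ∀ᶠ z : S in 𝓝 z₀, ∀ i < k, z.1.1 i = z₀.1.1 i :=
        (continuous_fst.comp continuous_subtype_val).tendsto z₀ |>.eventually
          ((cyl_open k z₀.1.1).mem_nhds fun i _ => rfl)
      filter_upwards [h1] with z hz
      have e : a z.1.1 = a z₀.1.1 := by
        rw [← ha z.1.1, ← ha z₀.1.1]
        congr 1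
        funext i
        by_cases hi : i < k
        · rw [tr_lt hi, tr_lt hi, hz i hi]
        · rw [tr_ge (not_lt.1 hi), tr_ge (not_lt.1 hi)]
      rw [e, sub_self, norm_zero]
      exact hε⟩

@[simp] theorem lc_apply (k : ℕ) (a : (ℕ → Bool) → A) (ha : ∀ ξ, a (tr k ξ) = a ξ) (z : S) :
    (lc S Φ k a ha).1 z = Φ.π z.1.2 (a z.1.1) := rfl

/-! ## Membership in the class -/

theorem ri_bij (S : Set ((ℕ → Bool) × X)) :
    Function.Bijective (ri S ∅ : R Φ S ∅ →⋆ₙₐ[ℂ] G Φ S) :=
  ⟨Subtype.val_injective, fun g => ⟨⟨g, fun _ hz => absurd hz (notMem_empty _)⟩, rfl⟩⟩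

/-- the points with the coordinates `≥ k` equal to `false` -/
def Ck (X : Type) (k : ℕ) : Set ((ℕ → Bool) × X) := {z | ∀ i, k ≤ i → z.1 i = false}

theorem Ck_closed (X : Type) [TopologicalSpace X] (k : ℕ) : IsClosed (Ck X k) := by
  have e : Ck X k = ⋂ i : ℕ, ⋂ _ : k ≤ i, {z : (ℕ → Bool) × X | z.1 i = false} := by
    ext z
    simp [Ck]
  rw [e]
  exact isClosed_iInter fun i => isClosed_iInter fun _ =>
    isClosed_eq ((continuous_apply i).comp continuous_fst) continuous_const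

theorem N_Ck {𝒩 : Cls} (hN : IsClass 𝒩) (hA : 𝒩 A) [T2Space X] [CompactSpace X]
    (Φ : UField X F A) (k : ℕ) : 𝒩 (G Φ (Ck X k)) := by
  induction k with
  | zero =>
    refine N_bij hN (B := G Φ (Ck X 0)) (inc (Ck X 0) Φ) (inc_bij (fun _ => false) ?_) hA
    ext z
    constructor
    · intro hz
      exact funext fun i => hz i (Nat.zero_le _)
    · intro hz i _
      have h1 : z.1 = fun _ => false := hz
      rw [h1]
  | succ k ih =>
    have hsub : Ck X k ⊆ Ck X (k + 1) := fun z hz i hi => hz i ((Nat.le_succ k).trans hi)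
    have hex := ext_res (Φ := Φ) (Ck_closed X (k + 1)) (Ck_closed X k) hsub
    refine hN.ext _ _ _ _ _ hex ?_ ih
    -- the ideal
    let τ : (ℕ → Bool) → (ℕ → Bool) := fun ξ => Function.update ξ k true
    have hτ : Continuous τ := continuous_id.update k continuous_const
    have h1 : ∀ z ∈ Ck X k, (τ z.1, z.2) ∈ Ck X (k + 1) := by
      intro z hz i hi
      change Function.update z.1 k true i = false
      rw [Function.update_of_ne (by omega)]
      exact hz i (by omega)
    have hb := rho_bij (Φ := Φ) (S := Ck X (k + 1)) (D := Ck X k) (S' := Ck X k) (D' := ∅)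
      (Ck_closed X k) (Ck_closed X k) τ hτ h1 (fun z _ hz => absurd hz (notMem_empty _))
      (by
        intro z _ hz2
        have h3 : Function.update z.1 k true k = false := hz2 k le_rfl
        rw [Function.update_self] at h3
        exact absurd h3 (by decide))
      (by
        intro z hz hz2
        refine ⟨Function.update z.1 k false, fun i hi => ?_, ?_⟩
        · change Function.update z.1 k false i = false
          rcases eq_or_lt_of_le hi with rfl | h4
          · rw [Function.update_self]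
          · rw [Function.update_of_ne (by omega)]
            exact hz i h4
        · change Function.update (Function.update z.1 k false) k true = z.1
          rw [Function.update_idem]
          have h5 : z.1 k = true := by
            by_contra h6
            apply hz2
            intro i hi
            rcases eq_or_lt_of_le hi with rfl | h4
            · simpa using h6
            · exact hz i h4
          rw [← h5, Function.update_eq_self])
      (by
        intro ξ ξ' x hz hz' _ he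
        funext i
        by_cases hi : i = k
        · subst hi
          exact (hz i le_rfl).trans (hz' i le_rfl).symm
        · have := congrFun he i
          change Function.update ξ k true i = Function.update ξ' k true i at this
          rwa [Function.update_of_ne hi, Function.update_of_ne hi] at this)
    have h2 : 𝒩 (R Φ (Ck X k) ∅) := N_bij' hN (A := R Φ (Ck X k) ∅) (B := G Φ (Ck X k))
      (ri (Ck X k) ∅) (ri_bij (Φ := Φ) (Ck X k)) ih
    exact N_bij' hN (A := R Φ (Ck X (k + 1)) (Ck X k)) (B := R Φ (Ck X k) ∅) _ hb h2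

theorem G_N {𝒩 : Cls} (hN : IsClass 𝒩) (hA : 𝒩 A) [T2Space X] [CompactSpace X]
    (Φ : UField X F A) {S : Set ((ℕ → Bool) × X)} (hS : IsClosed S) : 𝒩 (G Φ S) := by
  have hU : 𝒩 (G Φ (univ : Set ((ℕ → Bool) × X))) := by
    have h1 : ∀ k, ∀ z ∈ Ck X (k + 1), (tr k z.1, z.2) ∈ Ck X k := fun k z _ i hi => tr_ge hi _
    have h2 : ∀ k, ∀ z ∈ (univ : Set ((ℕ → Bool) × X)), (tr k z.1, z.2) ∈ Ck X k :=
      fun k z _ i hi => tr_ge hi _
    refine hN.union (G Φ (univ : Set ((ℕ → Bool) × X))) (fun k => G Φ (Ck X k))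
      (fun k => pull (tr k) (tr_cont k) (h1 k)) (fun k => pull (tr k) (tr_cont k) (h2 k))
      ⟨fun k => ⟨?_, ?_⟩, ?_⟩ fun k => N_Ck hN hA Φ k
    · intro g h hgh
      refine G_ext fun z => ?_
      have h3 : (pull (tr k) (tr_cont k) (h2 k) g).1 ⟨z.1, mem_univ _⟩ =
          (pull (tr k) (tr_cont k) (h2 k) h).1 ⟨z.1, mem_univ _⟩ := by
        have := congrArg (fun q : G Φ (univ : Set ((ℕ → Bool) × X)) => q.1 ⟨z.1, mem_univ _⟩) hgh
        exact this
      rw [pull_apply, pull_apply] at h3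
      have h4 : (⟨(tr k z.1.1, z.1.2), h2 k z.1 (mem_univ _)⟩ : Ck X k) = z :=
        Subtype.ext (Prod.ext (tr_self z.2) rfl)
      have h5 : ∀ y : Ck X k, y = z → g.1 y = h.1 y → g.1 z = h.1 z := by
        rintro y rfl h6
        exact h6
      exact h5 _ h4 h3
    · intro g
      refine G_ext fun z => ?_
      change g.1 ⟨(tr k z.1.1, z.1.2), _⟩ = g.1 ⟨(tr k (tr (k + 1) z.1.1), z.1.2), _⟩
      have h5 : ∀ (ξ ξ' : ℕ → Bool) (h : (ξ, z.1.2) ∈ Ck X k) (h' : (ξ', z.1.2) ∈ Ck X k),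
          ξ = ξ' → g.1 ⟨(ξ, z.1.2), h⟩ = g.1 ⟨(ξ', z.1.2), h'⟩ := by
        rintro ξ _ h h' rfl
        rfl
      exact h5 _ _ _ _ (tr_tr (Nat.le_succ k) _).symm
    · intro g
      rw [Metric.mem_closure_iff]
      intro ε hε
      obtain ⟨k, a, ha, hg⟩ := lcd (Φ := Φ) isClosed_univ g (half_pos hε)
      refine ⟨_, mem_iUnion.2 ⟨k, ⟨lc (Ck X k) Φ k a ha, rfl⟩⟩, ?_⟩
      rw [dist_eq_norm]
      refine lt_of_le_of_lt (G_norm_le (C := ε / 2) (by positivity) fun z => ?_) (half_lt_self hε)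
      have e : (pull (tr k) (tr_cont k) (h2 k) (lc (Ck X k) Φ k a ha)).1 z =
          Φ.π z.1.2 (a z.1.1) := by
        rw [pull_apply, lc_apply]
        change Φ.π z.1.2 (a (tr k z.1.1)) = _
        rw [ha]
      rw [G_sub]
      refine le_trans (le_of_eq ?_) (hg z)
      congr 2
  exact hN.quot _ _ _ _ _ (ext_res (Φ := Φ) isClosed_univ hS (subset_univ S)) hU

end

end Pool.Agent.Helper51.FU
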