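import Pool.Agent.Helper51.FU.Sec

/-!
# Section algebras: relative ideals and excision
-/

set_option autoImplicit false

open TopologicalSpace Set Filter Topology
open scoped ENNReal

namespace Pool.Agent.Helper51.FU

open Pool.Agent.Helper39.CarDefs

noncomputable section

variable {X : Type} [TopologicalSpace X] {F : X → Type} [∀ x, NonUnitalCStarAlgebra (F x)]
  {A : Type} [NonUnitalCStarAlgebra A] {Φ : UField X F A}

/-- the sections over `S` that vanish on `D` -/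
def rel (Φ : UField X F A) (S D : Set ((ℕ → Bool) × X)) : NonUnitalStarSubalgebra ℂ (G Φ S) where
  carrier := {g | ∀ z : S, z.1 ∈ D → g.1 z = 0}
  add_mem' {g h} hg hh z hz := by rw [G_add, hg z hz, hh z hz, add_zero]
  zero_mem' z _ := rfl
  mul_mem' {g h} hg hh z hz := by rw [G_mul, hg z hz, zero_mul]
  smul_mem' c g hg z hz := by rw [G_smul, hg z hz, smul_zero]
  star_mem' {g} hg z hz := by rw [G_star, hg z hz, star_zero]

theorem ev_cont {S : Set ((ℕ → Bool) × X)} (z : S) : Continuous fun g : G Φ S => g.1 z :=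
  AddMonoidHomClass.continuous_of_bound (ev z : G Φ S →⋆ₙₐ[ℂ] F z.1.2) 1 fun g => by
    rw [one_mul]
    exact G_norm_apply g z

instance (S D : Set ((ℕ → Bool) × X)) :
    IsClosed ((rel Φ S D : NonUnitalStarSubalgebra ℂ (G Φ S)) : Set (G Φ S)) := by
  have e : ((rel Φ S D : NonUnitalStarSubalgebra ℂ (G Φ S)) : Set (G Φ S)) =
      ⋂ z : S, ⋂ _ : z.1 ∈ D, {g : G Φ S | g.1 z = 0} := by
    ext g
    simp only [mem_iInter]
    rfl
  rw [e]
  exact isClosed_iInter fun z => isClosed_iInter fun _ =>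
    isClosed_eq (ev_cont z) continuous_const

/-- the algebra of the sections over `S` that vanish on `D` -/
abbrev R (Φ : UField X F A) (S D : Set ((ℕ → Bool) × X)) : Type := rel Φ S D

/-- the inclusion -/
def ri (S D : Set ((ℕ → Bool) × X)) : R Φ S D →⋆ₙₐ[ℂ] G Φ S where
  toFun g := g.1
  map_add' _ _ := rfl
  map_zero' := rfl
  map_mul' _ _ := rfl
  map_smul' _ _ := rfl
  map_star' _ := rfl

@[simp] theorem ri_apply (S D : Set ((ℕ → Bool) × X)) (g : R Φ S D) : ri S D g = g.1 := rfl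

theorem compS [CompactSpace X] {S : Set ((ℕ → Bool) × X)} (hS : IsClosed S) : CompactSpace S :=
  isCompact_iff_compactSpace.1 hS.isCompact

/-- the extension of a closed subset -/
theorem ext_res [T2Space X] [CompactSpace X] {S D : Set ((ℕ → Bool) × X)} (hS : IsClosed S)
    (hD : IsClosed D) (h : D ⊆ S) :
    IsExtension (J := R Φ S D) (A := G Φ S) (Q := G Φ D) (ri S D) (res h) := by
  haveI := compS hS
  refine ⟨Subtype.val_injective, res_surj hD h, fun g => ⟨fun hg => ?_, ?_⟩⟩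
  · refine ⟨⟨g, fun z hz => ?_⟩, rfl⟩
    have h1 : (res h g).1 ⟨z.1, hz⟩ = 0 := by rw [hg]; rfl
    exact h1
  · rintro ⟨k, rfl⟩
    exact G_ext fun z => k.2 ⟨z.1, h z.2⟩ z.2

/-- the map of relative ideals -/
def rho {S D S' D' : Set ((ℕ → Bool) × X)} (τ : (ℕ → Bool) → (ℕ → Bool)) (hτ : Continuous τ)
    (h : ∀ z ∈ S', (τ z.1, z.2) ∈ S) (hD : ∀ z ∈ S', z ∈ D' → (τ z.1, z.2) ∈ D) :
    R Φ S D →⋆ₙₐ[ℂ] R Φ S' D' where
  toFun g := ⟨pull τ hτ h g.1, fun z hz => g.2 ⟨(τ z.1.1, z.1.2), h z.1 z.2⟩ (hD z.1 z.2 hz)⟩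
  map_add' _ _ := rfl
  map_zero' := rfl
  map_mul' _ _ := rfl
  map_smul' _ _ := rfl
  map_star' _ := rfl

/-- excision -/
theorem rho_bij [T2Space X] [CompactSpace X] {S D S' D' : Set ((ℕ → Bool) × X)}
    (hS' : IsClosed S') (hDc : IsClosed D) (τ : (ℕ → Bool) → (ℕ → Bool)) (hτ : Continuous τ)
    (h : ∀ z ∈ S', (τ z.1, z.2) ∈ S) (hD : ∀ z ∈ S', z ∈ D' → (τ z.1, z.2) ∈ D)
    (hD2 : ∀ z ∈ S', (τ z.1, z.2) ∈ D → z ∈ D')
    (hex : ∀ z ∈ S, z ∉ D → ∃ ξ, (ξ, z.2) ∈ S' ∧ τ ξ = z.1)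
    (hun : ∀ ξ ξ' x, (ξ, x) ∈ S' → (ξ', x) ∈ S' → (ξ, x) ∉ D' → τ ξ = τ ξ' → ξ = ξ') :
    Function.Bijective (rho τ hτ h hD : R Φ S D →⋆ₙₐ[ℂ] R Φ S' D') := by
  haveI := compS hS'
  constructor
  · rw [injective_iff_map_eq_zero]
    intro g hg
    refine Subtype.ext (G_ext fun z => ?_)
    by_cases hz : z.1 ∈ D
    · exact g.2 z hz
    · obtain ⟨ξ, h1, h2⟩ := hex z.1 z.2 hz
      have h3 : (pull τ hτ h g.1).1 ⟨(ξ, z.1.2), h1⟩ = 0 := by
        have h4 : pull τ hτ h g.1 = 0 := congrArg Subtype.val hg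
        rw [h4]
        rfl
      rw [pull_apply] at h3
      have h5 : (⟨(τ ξ, z.1.2), h _ h1⟩ : S) = z := Subtype.ext (Prod.ext h2 rfl)
      have h6 : ∀ y : S, y = z → ∀ hy : y.1.2 = z.1.2, g.1.1 y = 0 → g.1.1 z = 0 := by
        rintro y rfl _ h7
        exact h7
      exact h6 _ h5 rfl h3
  · intro g
    classical
    have hex' : ∀ z : S, z.1 ∉ D → ∃ ξ, (ξ, z.1.2) ∈ S' ∧ τ ξ = z.1.1 := fun z hz => hex z.1 z.2 hz
    choose σ hσ1 hσ2 using hex'
    let φ : S' → S := fun z => ⟨(τ z.1.1, z.1.2), h z.1 z.2⟩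
    have hφ : Continuous φ := Continuous.subtype_mk
      (((hτ.comp continuous_fst).prodMk continuous_snd).comp continuous_subtype_val) _
    have hcl : IsClosedMap φ := hφ.isClosedMap
    let f : ∀ z : S, F z.1.2 := fun z => if hz : z.1 ∈ D then 0 else g.1.1 ⟨(σ z hz, z.1.2), hσ1 z hz⟩
    have hfD : ∀ z : S, z.1 ∈ D → f z = 0 := fun z hz => dif_pos hz
    have hfn : ∀ (z : S) (hz : z.1 ∉ D), f z = g.1.1 ⟨(σ z hz, z.1.2), hσ1 z hz⟩ :=
      fun z hz => dif_neg hz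
    have hfib : ∀ (z : S) (hz : z.1 ∉ D), φ ⟨(σ z hz, z.1.2), hσ1 z hz⟩ = z := fun z hz =>
      Subtype.ext (Prod.ext (hσ2 z hz) rfl)
    refine ⟨⟨mk f ⟨‖g.1‖, fun z => ?_⟩ fun z₀ ε hε => ?_, fun z hz => hfD z hz⟩,
      Subtype.ext (G_ext fun z => ?_)⟩
    · by_cases hz : z.1 ∈ D
      · rw [hfD z hz, norm_zero]
        exact norm_nonneg _
      · rw [hfn z hz]
        exact G_norm_apply g.1 _
    · by_cases hz : z₀.1 ∈ D
      · refine ⟨0, ?_⟩
        have h1 := hcl.eventually_nhds_fiber (p := fun z => ‖g.1.1 z‖ < ε) z₀ (by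
          intro y hy
          have hy2 : y.1 ∈ D' := hD2 y.1 y.2 (by
            have h2 : φ y = z₀ := hy
            have h3 : (φ y).1 ∈ D := by rw [h2]; exact hz
            exact h3)
          refine G_usc g.1 ?_
          rw [g.2 y hy2, norm_zero]
          exact hε)
        filter_upwards [h1] with z h2
        rw [map_zero, sub_zero]
        by_cases hz : z.1 ∈ D
        · rw [hfD z hz, norm_zero]
          exact hε
        · rw [hfn z hz]
          exact h2 _ (hfib z hz)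
      · obtain ⟨a, ha⟩ := G_loc g.1 ⟨(σ z₀ hz, z₀.1.2), hσ1 z₀ hz⟩ hε
        refine ⟨a, ?_⟩
        have h1 := hcl.eventually_nhds_fiber (p := fun z => ‖g.1.1 z - Φ.π z.1.2 a‖ < ε) z₀ (by
          intro y hy
          have hy0 : φ y = z₀ := hy
          have hy2 : y.1 ∉ D' := by
            intro h3
            apply hz
            rw [← hy0]
            exact hD y.1 y.2 h3
          have hy3 : y = ⟨(σ z₀ hz, z₀.1.2), hσ1 z₀ hz⟩ := by
            have e2 : y.1.2 = z₀.1.2 := congrArg (fun q : S => q.1.2) hy0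
            have e1 : τ y.1.1 = z₀.1.1 := congrArg (fun q : S => q.1.1) hy0
            refine Subtype.ext (Prod.ext ?_ e2)
            refine hun y.1.1 (σ z₀ hz) y.1.2 y.2 (by rw [e2]; exact hσ1 z₀ hz) hy2 ?_
            rw [e1, hσ2]
          rw [hy3]
          exact ha)
        have h2 : ∀ᶠ z : S in 𝓝 z₀, z.1 ∉ D :=
          (hDc.isOpen_compl.preimage continuous_subtype_val).mem_nhds hz
        filter_upwards [h1, h2] with z h3 h4
        rw [hfn z h4]
        exact h3 _ (hfib z h4)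
    · change f (φ z) = g.1.1 z
      by_cases hz : (φ z).1 ∈ D
      · rw [hfD _ hz]
        exact (g.2 z (hD2 z.1 z.2 hz)).symm
      · rw [hfn _ hz]
        have hy2 : z.1 ∉ D' := fun h3 => hz (hD z.1 z.2 h3)
        have e : σ (φ z) hz = z.1.1 :=
          (hun z.1.1 (σ (φ z) hz) z.1.2 z.2 (hσ1 (φ z) hz) hy2 (hσ2 (φ z) hz).symm).symm
        have e2 : (⟨(σ (φ z) hz, z.1.2), hσ1 (φ z) hz⟩ : S') = z :=
          Subtype.ext (Prod.ext e rfl)
        have h6 : ∀ y : S', y = z → ∀ hy : y.1.2 = z.1.2, HEq (g.1.1 y) (g.1.1 z) := by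
          rintro y rfl _
          rfl
        exact eq_of_heq (h6 _ e2 rfl)

end

end Pool.Agent.Helper51.FU
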