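import Pool.Agent.Helper51.FU.Field

/-!
# Section algebras: density, extension of sections, separability
-/

set_option autoImplicit false

open TopologicalSpace Set Filter Topology
open scoped ENNReal

namespace Pool.Agent.Helper51.FU

noncomputable section

variable {X : Type} [TopologicalSpace X] {F : X → Type} [∀ x, NonUnitalCStarAlgebra (F x)]
  {A : Type} [NonUnitalCStarAlgebra A] {Φ : UField X F A} {S : Set ((ℕ → Bool) × X)}

/-- partitions of unity -/
theorem den [T2Space X] [CompactSpace S] (g : G Φ S) {ε : ℝ} (hε : 0 < ε) :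
    ∃ (ι : Type) (_ : Fintype ι) (f : ι → C(S, ℂ)) (a : ι → A),
      ‖g - ∑ i, fm (f i) (inc S Φ (a i))‖ ≤ ε := by
  choose a ha using fun z₀ : S => G_loc g z₀ hε
  choose U hU hUo hUz using fun z₀ : S => eventually_nhds_iff.1 (ha z₀)
  obtain ⟨t, ht⟩ := isCompact_univ.elim_finite_subcover U hUo
    (fun z _ => mem_iUnion.2 ⟨z, hUz z⟩)
  obtain ⟨f, hf⟩ := PartitionOfUnity.exists_isSubordinate (X := S) isClosed_univ
    (fun i : t => U i) (fun i => hUo i) (by
      intro z hz
      obtain ⟨i, hi⟩ := mem_iUnion.1 (ht hz)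
      obtain ⟨hit, hi⟩ := mem_iUnion.1 hi
      exact mem_iUnion.2 ⟨⟨i, hit⟩, hi⟩)
  refine ⟨t, inferInstance, fun i => ⟨fun z => ((f i z : ℝ) : ℂ), by fun_prop⟩, fun i => a i, ?_⟩
  refine G_norm_le hε.le fun z => ?_
  rw [G_sub, G_sum]
  simp only [fm_apply, ContinuousMap.coe_mk, inc_apply]
  have h1 : ∑ i, f i z = 1 := by
    rw [← finsum_eq_sum_of_fintype]
    exact f.sum_eq_one (mem_univ z)
  have h2 : g.1 z = ∑ i, ((f i z : ℝ) : ℂ) • g.1 z := by
    rw [← Finset.sum_smul, ← Complex.ofReal_sum, h1]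
    simp
  have h3 : g.1 z - ∑ i, ((f i z : ℝ) : ℂ) • Φ.π z.1.2 (a i) =
      ∑ i, ((f i z : ℝ) : ℂ) • (g.1 z - Φ.π z.1.2 (a i)) := by
    simp only [smul_sub]
    rw [Finset.sum_sub_distrib, ← h2]
  rw [h3]
  refine (norm_sum_le _ _).trans ?_
  have h4 : ∀ i ∈ Finset.univ, ‖((f i z : ℝ) : ℂ) • (g.1 z - Φ.π z.1.2 (a i))‖ ≤ f i z * ε := by
    intro i _
    rw [norm_smul, Complex.norm_real, Real.norm_eq_abs, abs_of_nonneg (f.nonneg i z)]
    by_cases h5 : f i z = 0
    · simp [h5]
    · have h6 : z ∈ U i := hf i (subset_tsupport _ h5)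
      exact mul_le_mul_of_nonneg_left (hU i z h6).le (f.nonneg i z)
  refine (Finset.sum_le_sum h4).trans ?_
  rw [← Finset.sum_mul, h1, one_mul]

theorem fm_sum_res {D : Set ((ℕ → Bool) × X)} [CompactSpace S] [CompactSpace D] (h : D ⊆ S)
    (f : C(S, ℂ)) (g : G Φ S) :
    res h (fm f g) = fm (f.comp ⟨inclusion h, continuous_inclusion h⟩) (res h g) := rfl

/-- cutting down the norm off a closed subset -/
theorem cut [T2Space X] [CompactSpace S] {D : Set ((ℕ → Bool) × X)} (hD : IsClosed D) (h : D ⊆ S)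
    (g : G Φ S) {c : ℝ} (hc : ‖res h g‖ < c) : ∃ g' : G Φ S, res h g' = res h g ∧ ‖g'‖ ≤ c := by
  have hc0 : 0 < c := (norm_nonneg _).trans_lt hc
  have h1 : IsClosed {z : S | c ≤ ‖g.1 z‖} := by
    rw [← isOpen_compl_iff, isOpen_iff_mem_nhds]
    intro z hz
    rw [mem_compl_iff, mem_setOf_eq, not_le] at hz
    filter_upwards [G_usc g hz] with y hy
    rw [mem_compl_iff, mem_setOf_eq, not_le]
    exact hy
  have h2 : IsClosed {z : S | z.1 ∈ D} := hD.preimage continuous_subtype_val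
  obtain ⟨u, hu0, hu1, hu⟩ := exists_continuous_zero_one_of_isClosed h1 h2 (by
    rw [Set.disjoint_left]
    intro z hz hzD
    have h3 : ‖g.1 z‖ ≤ ‖res h g‖ := G_norm_apply (res h g) ⟨z.1, hzD⟩
    have h4 : c ≤ ‖g.1 z‖ := hz
    linarith)
  refine ⟨fm ⟨fun z => ((u z : ℝ) : ℂ), by fun_prop⟩ g, G_ext fun z => ?_, G_norm_le hc0.le fun z => ?_⟩
  · have h3 : u ⟨z.1, h z.2⟩ = 1 := hu1 (show (⟨z.1, h z.2⟩ : S) ∈ {z : S | z.1 ∈ D} from z.2)
    simp only [res_apply, fm_apply, ContinuousMap.coe_mk]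
    rw [h3]
    simp
  · rw [fm_apply, norm_smul]
    simp only [ContinuousMap.coe_mk]
    rw [Complex.norm_real, Real.norm_eq_abs, abs_of_nonneg (hu z).1]
    by_cases h3 : c ≤ ‖g.1 z‖
    · have h4 : u z = 0 := hu0 h3
      rw [h4]
      simp [hc0.le]
    · calc u z * ‖g.1 z‖ ≤ 1 * ‖g.1 z‖ := mul_le_mul_of_nonneg_right (hu z).2 (norm_nonneg _)
        _ ≤ c := by linarith [not_le.1 h3]

/-- sections extend -/
theorem res_surj [T2Space X] [CompactSpace S] {D : Set ((ℕ → Bool) × X)} (hD : IsClosed D)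
    (h : D ⊆ S) : Function.Surjective (res h : G Φ S →⋆ₙₐ[ℂ] G Φ D) := by
  haveI : CompactSpace D := by
    have h2 : IsCompact {z : S | z.1 ∈ D} := (hD.preimage continuous_subtype_val).isCompact
    have h3 := h2.image (continuous_subtype_val)
    have e : Subtype.val '' {z : S | z.1 ∈ D} = D := by
      ext z
      constructor
      · rintro ⟨y, hy, rfl⟩; exact hy
      · intro hz; exact ⟨⟨z, h hz⟩, hz, rfl⟩
    rw [e] at h3
    exact isCompact_iff_compactSpace.1 h3
  let r : NormedAddGroupHom (G Φ S) (G Φ D) :=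
    { toFun := res h
      map_add' := map_add _
      bound' := ⟨1, fun g => by
        rw [one_mul]
        exact NonUnitalStarAlgHom.norm_apply_le _ g⟩ }
  have hr : ∀ g, r g = res h g := fun g => rfl
  let K : AddSubgroup (G Φ D) := r.toAddMonoidHom.range
  have hK : r.SurjectiveOnWith K 2 := by
    rintro _ ⟨g, rfl⟩
    change ∃ g', r g' = r g ∧ ‖g'‖ ≤ 2 * ‖r g‖
    by_cases h0 : r g = 0
    · exact ⟨0, by rw [map_zero, h0], by rw [h0]; simp⟩
    · have h1 : 0 < ‖r g‖ := norm_pos_iff.2 h0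
      obtain ⟨g', h2, h3⟩ := cut hD h g (c := 2 * ‖r g‖) (by rw [← hr]; linarith)
      exact ⟨g', h2, h3⟩
  have hK2 := controlled_closure_of_complete (show (0 : ℝ) < 2 by norm_num) one_pos hK
  have hden : ∀ g : G Φ D, g ∈ K.topologicalClosure := by
    intro g
    change g ∈ closure (K : Set (G Φ D))
    rw [Metric.mem_closure_iff]
    intro ε hε
    obtain ⟨ι, _, f, a, h4⟩ := den g (half_pos hε)
    have he : IsClosedEmbedding (inclusion h) :=
      (continuous_inclusion h).isClosedEmbedding (inclusion_injective h)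
    choose f' hf' using fun i => (f i).exists_extension he
    refine ⟨r (∑ i, fm (f' i) (inc S Φ (a i))), ⟨_, rfl⟩, ?_⟩
    have e : r (∑ i, fm (f' i) (inc S Φ (a i))) = ∑ i, fm (f i) (inc D Φ (a i)) := by
      rw [map_sum]
      refine Finset.sum_congr rfl fun i _ => ?_
      rw [hr, fm_sum_res h, hf']
      rfl
    rw [e, dist_eq_norm]
    linarith
  intro g
  obtain ⟨g', h5, -⟩ := hK2 g (hden g)
  exact ⟨g', h5⟩

/-- the algebra of the field is the section algebra -/
theorem inc_bij [T2Space X] [CompactSpace X] {S : Set ((ℕ → Bool) × X)} (o : ℕ → Bool)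
    (hS : S = {z | z.1 = o}) : Function.Bijective (inc S Φ) := by
  have hm : ∀ x, (o, x) ∈ S := fun x => by rw [hS]; rfl
  have hf1 : ∀ z ∈ S, z.1 = o := fun z hz => by rw [hS] at hz; exact hz
  have hi : Function.Injective (inc S Φ) := by
    rw [injective_iff_map_eq_zero]
    intro a ha
    refine Φ.inj a fun x => ?_
    have h1 : (inc S Φ a).1 ⟨(o, x), hm x⟩ = 0 := by rw [ha]; rfl
    exact h1
  refine ⟨hi, ?_⟩
  haveI : CompactSpace S := by
    rw [hS]
    have : IsClosed {z : (ℕ → Bool) × X | z.1 = o} := isClosed_eq continuous_fst continuous_const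
    exact isCompact_iff_compactSpace.1 this.isCompact
  have hc : IsClosed (range (inc S Φ)) :=
    ((NonUnitalStarAlgHom.isometry (inc S Φ) hi).isClosedEmbedding).isClosed_range
  have hd : DenseRange (inc S Φ) := by
    intro g
    rw [Metric.mem_closure_iff]
    intro ε hε
    obtain ⟨ι, _, f, a, h4⟩ := den g (half_pos hε)
    choose b hb using fun i => Φ.mod ⟨fun x => f i ⟨(o, x), hm x⟩, by fun_prop⟩ (a i)
    refine ⟨_, ⟨∑ i, b i, rfl⟩, ?_⟩
    have e : inc S Φ (∑ i, b i) = ∑ i, fm (f i) (inc S Φ (a i)) := by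
      rw [map_sum]
      refine Finset.sum_congr rfl fun i _ => G_ext fun z => ?_
      rw [inc_apply, hb, fm_apply, inc_apply]
      have hz : z.1.1 = o := hf1 z.1 z.2
      have hz2 : (⟨(o, z.1.2), hm z.1.2⟩ : S) = z := Subtype.ext (Prod.ext hz.symm rfl)
      simp only [ContinuousMap.coe_mk]
      rw [hz2]
    rw [e, dist_eq_norm]
    linarith
  intro g
  have := hd g
  rw [hc.closure_eq] at this
  exact this

/-- section algebras are separable -/
theorem G_sep [T2Space X] [SecondCountableTopology X] [CompactSpace S] [SeparableSpace A] :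
    SeparableSpace (G Φ S) := by
  have h1 : ∀ n : ℕ, IsSeparable (range fun q : Fin n → C(S, ℂ) × A =>
      ∑ i, fm (q i).1 (inc S Φ (q i).2)) := by
    intro n
    refine isSeparable_range (continuous_finset_sum _ fun i _ => ?_)
    have h2 : Continuous fun q : C(S, ℂ) × A => fm q.1 (inc S Φ q.2) := by
      rw [continuous_iff_continuousAt]
      rintro ⟨f, a⟩
      rw [ContinuousAt, Metric.tendsto_nhds]
      intro ε hε
      have h3 : ∀ᶠ q : C(S, ℂ) × A in 𝓝 (f, a), dist q.1 f < ε / (2 * (‖a‖ + 1)) :=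
        (continuous_fst.tendsto (f, a)).eventually (Metric.ball_mem_nhds _ (by positivity))
      have h4 : ∀ᶠ q : C(S, ℂ) × A in 𝓝 (f, a), dist q.2 a < ε / (2 * (‖f‖ + 2)) :=
        (continuous_snd.tendsto (f, a)).eventually (Metric.ball_mem_nhds _ (by positivity))
      have h5 : ∀ᶠ q : C(S, ℂ) × A in 𝓝 (f, a), dist q.1 f < 1 :=
        (continuous_fst.tendsto (f, a)).eventually (Metric.ball_mem_nhds _ (by positivity))
      filter_upwards [h3, h4, h5] with q h3 h4 h5
      rw [dist_eq_norm] at *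
      refine lt_of_le_of_lt (G_norm_le (C := ‖q.1 - f‖ * ‖a‖ + (‖f‖ + 1) * ‖q.2 - a‖)
        (by positivity) fun z => ?_) ?_
      · have e : (fm q.1 (inc S Φ q.2) - fm f (inc S Φ a)).1 z =
            (q.1 z - f z) • Φ.π z.1.2 a + q.1 z • Φ.π z.1.2 (q.2 - a) := by
          rw [G_sub, fm_apply, fm_apply, inc_apply, inc_apply, map_sub, sub_smul, smul_sub]
          abel
        rw [e]
        refine (norm_add_le _ _).trans ?_
        rw [norm_smul, norm_smul]
        have h6 : ‖q.1 z - f z‖ ≤ ‖q.1 - f‖ := (q.1 - f).norm_coe_le_norm z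
        have h7 : ‖q.1 z‖ ≤ ‖f‖ + 1 := by
          have h8 := q.1.norm_coe_le_norm z
          have h9 : ‖q.1‖ ≤ ‖f‖ + ‖q.1 - f‖ := by
            have := norm_add_le f (q.1 - f)
            simpa using this
          linarith
        exact add_le_add (mul_le_mul h6 (NonUnitalStarAlgHom.norm_apply_le _ _) (norm_nonneg _)
          (norm_nonneg _)) (mul_le_mul h7 (NonUnitalStarAlgHom.norm_apply_le _ _) (norm_nonneg _)
          (by positivity))
      · have h6 : ‖q.1 - f‖ * ‖a‖ ≤ ε / 2 := by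
          calc ‖q.1 - f‖ * ‖a‖ ≤ ε / (2 * (‖a‖ + 1)) * (‖a‖ + 1) :=
                mul_le_mul h3.le (by linarith) (norm_nonneg _) (by positivity)
            _ = ε / 2 := by field_simp
        have h7 : (‖f‖ + 1) * ‖q.2 - a‖ < ε / 2 := by
          calc (‖f‖ + 1) * ‖q.2 - a‖ < (‖f‖ + 1) * (ε / (2 * (‖f‖ + 2))) :=
                mul_lt_mul_of_pos_left h4 (by positivity)
            _ ≤ (‖f‖ + 2) * (ε / (2 * (‖f‖ + 2))) :=
                mul_le_mul_of_nonneg_right (by linarith) (by positivity)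
            _ = ε / 2 := by field_simp
        linarith
    exact h2.comp (continuous_apply i)
  have h2 : IsSeparable (⋃ n : ℕ, range fun q : Fin n → C(S, ℂ) × A =>
      ∑ i, fm (q i).1 (inc S Φ (q i).2)) := IsSeparable.iUnion h1
  have h3 : closure (⋃ n : ℕ, range fun q : Fin n → C(S, ℂ) × A =>
      ∑ i, fm (q i).1 (inc S Φ (q i).2)) = (univ : Set (G Φ S)) := by
    rw [eq_univ_iff_forall]
    intro g
    rw [Metric.mem_closure_iff]
    intro ε hε
    obtain ⟨ι, _, f, a, h4⟩ := den g (half_pos hε)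
    let e := Fintype.equivFin ι
    refine ⟨_, mem_iUnion.2 ⟨Fintype.card ι, ⟨fun i => (f (e.symm i), a (e.symm i)), rfl⟩⟩, ?_⟩
    have e1 : ∑ i, fm (f (e.symm i)) (inc S Φ (a (e.symm i))) = ∑ i, fm (f i) (inc S Φ (a i)) :=
      Equiv.sum_comp e.symm fun i => fm (f i) (inc S Φ (a i))
    change dist g (∑ i, fm (f (e.symm i)) (inc S Φ (a (e.symm i)))) < ε
    rw [e1, dist_eq_norm]
    linarith
  have h4 := h2.closure
  rw [h3] at h4
  exact isSeparable_univ_iff.1 h4

end

end Pool.Agent.Helper51.FU
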